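import Mathlib
import Pool.Agent.P8H10.SF.Stm

/-!
# Project SF (helper10): the squares of the logarithms (package LSQ)
-/

set_option autoImplicit false

open Finset Filter Topology

namespace Pool.Agent.P8H96.SF

open Pool.Agent.P8H10.SF

/-- the residue field of `ℚ_2` has two elements -/
theorem norm_sub_one {c : ℚ_[2]} (hc : ‖c‖ = 1) : ‖c - 1‖ ≤ 1 / 2 := by
  obtain ⟨x, hx⟩ : ∃ x : ℤ_[2], (x : ℚ_[2]) = c := ⟨⟨c, hc.le⟩, rfl⟩
  have hx1 : ‖x‖ = 1 := by rw [PadicInt.norm_def, hx, hc]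
  obtain ⟨h1, h2⟩ := PadicInt.zmodRepr_spec x
  have h3 : ‖x - (PadicInt.zmodRepr x : ℤ_[2])‖ < 1 := PadicInt.mem_nonunits.1 ((IsLocalRing.mem_maximalIdeal _).1 h2)
  have h4 : PadicInt.zmodRepr x = 1 := by
    by_contra hcon
    have h5 : PadicInt.zmodRepr x = 0 := by omega
    rw [h5, Nat.cast_zero, sub_zero, hx1] at h3
    exact lt_irrefl _ h3
  rw [h4, Nat.cast_one] at h3
  have h6 : ‖c - 1‖ < 1 := by
    rw [PadicInt.norm_def] at h3
    push_cast at h3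
    rwa [hx] at h3
  have h7 := (Padic.norm_le_pow_iff_norm_lt_pow_add_one (c - 1) (-1)).2 (by simpa using h6)
  refine h7.trans (le_of_eq ?_)
  norm_num

theorem norm_le_half {c : ℚ_[2]} (hc : ‖c‖ < 1) : ‖c‖ ≤ 1 / 2 := by
  have h7 := (Padic.norm_le_pow_iff_norm_lt_pow_add_one c (-1)).2 (by simpa using hc)
  refine h7.trans (le_of_eq ?_)
  norm_num

theorem norm_two : ‖(2 : PadicAlgCl 2)‖ = 1 / 2 := by
  have h := PadicAlgCl.norm_extends 2 (2 : ℚ_[2])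
  rw [map_ofNat] at h
  rw [h]
  have h2 := Padic.norm_p (p := 2)
  rw [Nat.cast_ofNat] at h2
  rw [h2]
  norm_num

theorem norm_odd {m : ℕ} (hm : Odd m) : ‖(m : PadicAlgCl 2)‖ = 1 := by
  have h := PadicAlgCl.norm_extends 2 (m : ℚ_[2])
  rw [map_natCast] at h
  rw [h, Padic.norm_natCast_eq_one_iff]
  exact Nat.coprime_two_left.2 hm

theorem norm_hasSum_le {f : ℕ → PadicAlgCl 2} {s : PadicAlgCl 2} {C : ℝ} (hC : 0 ≤ C) (hf : HasSum f s)
    (h : ∀ n, ‖f n‖ ≤ C) : ‖s‖ ≤ C := by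
  refine le_of_tendsto hf.tendsto_sum_nat.norm (Eventually.of_forall fun n => ?_)
  exact IsUltrametricDist.norm_sum_le_of_forall_le_of_nonneg hC fun i _ => h i

theorem log_approx {L : PadicAlgCl 2 → PadicAlgCl 2}
    (hmul : ∀ x y : PadicAlgCl 2, x ≠ 0 → y ≠ 0 → L (x * y) = L x + L y)
    (hser : ∀ z : PadicAlgCl 2, ‖z‖ < 1 → HasSum (fun n : ℕ =>
      (-1 : PadicAlgCl 2) ^ n * z ^ (n + 1) / ((n : PadicAlgCl 2) + 1)) (L (1 + z)))
    {r : PadicAlgCl 2} (hr : ‖r‖ = 1) : ‖L ((1 + 4 * r) / (1 - 4 * r)) - 8 * r‖ ≤ 1 / 128 := by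
  have h4 : ‖(4 : PadicAlgCl 2)‖ = 1 / 4 := by
    rw [show (4 : PadicAlgCl 2) = 2 * 2 by norm_num, norm_mul, norm_two]
    norm_num
  have hx : ‖4 * r‖ = 1 / 4 := by rw [norm_mul, h4, hr, mul_one]
  have hx' : ‖-(4 * r)‖ = 1 / 4 := by rw [norm_neg, hx]
  have hne : ∀ z : PadicAlgCl 2, ‖z‖ = 1 / 4 → 1 + z ≠ 0 := by
    intro z hz h
    have h1 : z = -1 := by linear_combination h
    rw [h1, norm_neg, norm_one] at hz
    norm_num at hz
  have hn1 := hne _ hx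
  have hn2 := hne _ hx'
  have hL : L ((1 + 4 * r) / (1 - 4 * r)) = L (1 + 4 * r) - L (1 + -(4 * r)) := by
    have h1 := hmul ((1 + 4 * r) / (1 + -(4 * r))) (1 + -(4 * r)) (div_ne_zero hn1 hn2) hn2
    rw [div_mul_cancel₀ _ hn2] at h1
    rw [sub_eq_add_neg, h1]
    ring
  have h1 := hser (4 * r) (by rw [hx]; norm_num)
  have h2 := hser (-(4 * r)) (by rw [hx']; norm_num)
  have h3 := h1.sub h2
  rw [← hL] at h3
  have h5 := (hasSum_nat_add_iff' 1).2 h3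
  have h6 := norm_hasSum_le (C := 1 / 128) (by norm_num) h5 (by
    intro n
    rcases Nat.even_or_odd (n + 1) with he | ho
    · have e1 : (-1 : PadicAlgCl 2) ^ (n + 1) * (4 * r) ^ (n + 1 + 1) / (((n + 1 : ℕ) : PadicAlgCl 2) + 1) -
          (-1) ^ (n + 1) * (-(4 * r)) ^ (n + 1 + 1) / (((n + 1 : ℕ) : PadicAlgCl 2) + 1) =
          2 * (4 * r) ^ (n + 1 + 1) / ((n + 1 + 1 : ℕ) : PadicAlgCl 2) := by
        rw [he.neg_one_pow, he.add_one.neg_pow]
        push_cast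
        ring
      rw [e1, norm_div, norm_mul, norm_pow, norm_two, hx, norm_odd he.add_one, div_one]
      have hn : 1 ≤ n := by
        rcases Nat.eq_zero_or_pos n with h0 | h0
        · rw [h0] at he
          exact absurd he (by decide)
        · exact h0
      have h7 : (1 / 4 : ℝ) ^ (n + 1 + 1) ≤ (1 / 4) ^ 3 :=
        pow_le_pow_of_le_one (by norm_num) (by norm_num) (by omega)
      calc (1 / 2 : ℝ) * (1 / 4) ^ (n + 1 + 1) ≤ 1 / 2 * (1 / 4) ^ 3 := by gcongr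
        _ = 1 / 128 := by norm_num
    · have e1 : (-1 : PadicAlgCl 2) ^ (n + 1) * (4 * r) ^ (n + 1 + 1) / (((n + 1 : ℕ) : PadicAlgCl 2) + 1) -
          (-1) ^ (n + 1) * (-(4 * r)) ^ (n + 1 + 1) / (((n + 1 : ℕ) : PadicAlgCl 2) + 1) = 0 := by
        rw [ho.add_one.neg_pow]
        ring
      rw [e1, norm_zero]
      norm_num)
  have e2 : (∑ i ∈ range 1, ((-1 : PadicAlgCl 2) ^ i * (4 * r) ^ (i + 1) / ((i : PadicAlgCl 2) + 1) -
      (-1) ^ i * (-(4 * r)) ^ (i + 1) / ((i : PadicAlgCl 2) + 1))) = 8 * r := by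
    rw [sum_range_one]
    simp
    ring
  rw [e2] at h6
  exact h6

theorem lsq : S_LSQ := by
  intro L hmul hser ι _ r θ hr hθ b hb0 hb
  classical
  have hθ1 : ∀ i, ‖θ i‖ = 1 := by
    intro i
    have := hθ {i} (singleton_nonempty i)
    rwa [sum_singleton] at this
  have hr1 : ∀ i, ‖r i‖ = 1 := by
    intro i
    have h1 : ‖2 * θ i‖ = 1 / 2 := by rw [norm_mul, norm_two, hθ1, mul_one]
    have h2 : ‖1 + 2 * θ i‖ = 1 := by
      rw [IsUltrametricDist.norm_add_eq_max_of_norm_ne_norm (by rw [h1, norm_one]; norm_num), h1, norm_one]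
      norm_num
    rw [← hr i, norm_pow] at h2
    exact (pow_eq_one_iff_of_nonneg (norm_nonneg _) two_ne_zero).1 h2
  by_contra hcon
  push Not at hcon
  -- a coefficient of the largest norm
  obtain ⟨i0, hi0⟩ := hcon
  obtain ⟨j, -, hj⟩ := exists_max_image (univ : Finset ι) (fun i => ‖b i‖) ⟨i0, mem_univ i0⟩
  have hj0 : b j ≠ 0 := by
    intro h
    have := hj i0 (mem_univ _)
    rw [h, norm_zero] at this
    exact hi0 (norm_eq_zero.1 (le_antisymm this (norm_nonneg _)))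
  obtain ⟨c, hc⟩ : ∃ c : ι → ℚ_[2], c = fun i => b i / b j := ⟨_, rfl⟩
  have hc1 : ∀ i, ‖c i‖ ≤ 1 := by
    intro i
    rw [hc]
    simp only
    rw [norm_div]
    exact div_le_one_of_le₀ (hj i (mem_univ _)) (norm_nonneg _)
  have hcj : c j = 1 := by
    rw [hc]
    exact div_self hj0
  have hc0 : ∑ i, c i = 0 := by
    rw [hc]
    simp only
    rw [← sum_div, hb0, zero_div]
  obtain ⟨ψ, hψ⟩ : ∃ ψ : ℚ_[2] →+* PadicAlgCl 2, ψ = algebraMap ℚ_[2] (PadicAlgCl 2) := ⟨_, rfl⟩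
  have hnorm : ∀ x : ℚ_[2], ‖ψ x‖ = ‖x‖ := fun x => by rw [hψ]; exact PadicAlgCl.norm_extends 2 x
  have hrel : ∑ i, ψ (c i) * L ((1 + 4 * r i) / (1 - 4 * r i)) ^ 2 = 0 := by
    have h1 : ∀ i, ψ (c i) * L ((1 + 4 * r i) / (1 - 4 * r i)) ^ 2 =
        (ψ (b j))⁻¹ * (ψ (b i) * L ((1 + 4 * r i) / (1 - 4 * r i)) ^ 2) := by
      intro i
      rw [hc]
      simp only
      rw [map_div₀]
      ring
    simp_rw [h1]
    rw [← mul_sum]
    have h2 : ∑ i, ψ (b i) * L ((1 + 4 * r i) / (1 - 4 * r i)) ^ 2 = 0 := by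
      rw [hψ]
      exact hb
    rw [h2, mul_zero]
  -- the error of the squares
  obtain ⟨ρ, hρ⟩ : ∃ ρ : ι → PadicAlgCl 2, ρ = fun i => L ((1 + 4 * r i) / (1 - 4 * r i)) ^ 2 - 64 * r i ^ 2 :=
    ⟨_, rfl⟩
  have h8 : ‖(8 : PadicAlgCl 2)‖ = 1 / 8 := by
    rw [show (8 : PadicAlgCl 2) = 2 ^ 3 by norm_num, norm_pow, norm_two]
    norm_num
  have h128 : ‖(128 : PadicAlgCl 2)‖ = 1 / 128 := by
    rw [show (128 : PadicAlgCl 2) = 2 ^ 7 by norm_num, norm_pow, norm_two]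
    norm_num
  have hρ1 : ∀ i, ‖ρ i‖ ≤ 1 / 1024 := by
    intro i
    have h1 := log_approx hmul hser (hr1 i)
    obtain ⟨l, hl⟩ : ∃ l, l = L ((1 + 4 * r i) / (1 - 4 * r i)) := ⟨_, rfl⟩
    have h2 : ρ i = (l - 8 * r i) * (l - 8 * r i + 2 * (8 * r i)) := by
      rw [hρ, hl]
      ring
    rw [← hl] at h1
    have h3 : ‖2 * (8 * r i)‖ ≤ 1 / 8 := by
      rw [norm_mul, norm_mul, norm_two, h8, hr1]
      norm_num
    have h4 : ‖l - 8 * r i + 2 * (8 * r i)‖ ≤ 1 / 8 :=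
      (IsUltrametricDist.norm_add_le_max _ _).trans (max_le (h1.trans (by norm_num)) h3)
    rw [h2, norm_mul]
    calc ‖l - 8 * r i‖ * ‖l - 8 * r i + 2 * (8 * r i)‖ ≤ 1 / 128 * (1 / 8) :=
          mul_le_mul h1 h4 (norm_nonneg _) (by norm_num)
      _ = 1 / 1024 := by norm_num
  have hmain : 128 * ∑ i, ψ (c i) * θ i = -∑ i, ψ (c i) * ρ i := by
    have h1 : ∀ i, ψ (c i) * L ((1 + 4 * r i) / (1 - 4 * r i)) ^ 2 =
        64 * ψ (c i) + 128 * (ψ (c i) * θ i) + ψ (c i) * ρ i := by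
      intro i
      rw [hρ]
      simp only
      rw [hr i]
      ring
    simp_rw [h1] at hrel
    rw [sum_add_distrib, sum_add_distrib, ← mul_sum, ← mul_sum, ← map_sum, hc0, map_zero, mul_zero, zero_add] at hrel
    linear_combination hrel
  have hsmall : ‖∑ i, ψ (c i) * θ i‖ ≤ 1 / 8 := by
    have h1 : ‖∑ i, ψ (c i) * ρ i‖ ≤ 1 / 1024 := by
      refine IsUltrametricDist.norm_sum_le_of_forall_le_of_nonneg (by norm_num) fun i _ => ?_
      rw [norm_mul, hnorm]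
      calc ‖c i‖ * ‖ρ i‖ ≤ 1 * (1 / 1024) := mul_le_mul (hc1 i) (hρ1 i) (norm_nonneg _) zero_le_one
        _ = 1 / 1024 := one_mul _
    have h2 : ‖128 * ∑ i, ψ (c i) * θ i‖ ≤ 1 / 1024 := by rw [hmain, norm_neg]; exact h1
    rw [norm_mul, h128] at h2
    linarith
  -- the sum modulo two
  obtain ⟨S, hS⟩ : ∃ S : Finset ι, S = univ.filter fun i => ‖c i‖ = 1 := ⟨_, rfl⟩
  have hjS : j ∈ S := by
    rw [hS, mem_filter]
    exact ⟨mem_univ _, by rw [hcj, norm_one]⟩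
  have hone := hθ S ⟨j, hjS⟩
  have hdiff : ‖∑ i, ψ (c i) * θ i - ∑ i ∈ S, θ i‖ ≤ 1 / 2 := by
    have h1 : ∑ i, ψ (c i) * θ i - ∑ i ∈ S, θ i = ∑ i, (ψ (c i) - if ‖c i‖ = 1 then 1 else 0) * θ i := by
      rw [hS, sum_filter, ← sum_sub_distrib]
      refine sum_congr rfl fun i _ => ?_
      split_ifs <;> ring
    rw [h1]
    refine IsUltrametricDist.norm_sum_le_of_forall_le_of_nonneg (by norm_num) fun i _ => ?_
    rw [norm_mul, hθ1, mul_one]
    split_ifs with h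
    · rw [show ψ (c i) - 1 = ψ (c i - 1) by rw [map_sub, map_one], hnorm]
      exact norm_sub_one h
    · rw [sub_zero, hnorm]
      exact norm_le_half (lt_of_le_of_ne (hc1 i) h)
  have hlast : ‖∑ i ∈ S, θ i‖ ≤ 1 / 2 := by
    have h1 : ∑ i ∈ S, θ i = ∑ i, ψ (c i) * θ i + -(∑ i, ψ (c i) * θ i - ∑ i ∈ S, θ i) := by ring
    rw [h1]
    refine (IsUltrametricDist.norm_add_le_max _ _).trans (max_le (hsmall.trans (by norm_num)) ?_)
    rw [norm_neg]
    exact hdiff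
  rw [hone] at hlast
  norm_num at hlast

end Pool.Agent.P8H96.SF
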